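import Mathlib.MeasureTheory.Constructions.Pi
import Mathlib.MeasureTheory.Measure.Lebesgue.Basic
import Pool.Agent.Helper92.VP.Goals

/-!
# VP, packet GEO: grid points approximate the volume
-/

set_option autoImplicit false

namespace Pool.Agent.Helper39.VP

open MeasureTheory Pool.Agent.Helper92.VP

variable {n : ℕ}

/-- The slab of a row: the points of the box at which the row can fail to have the same truth value
as at the lower corner of the cell. -/
def slab (l u : Fin n → ℝ) (N : ℕ) (r : (Fin n → ℝ) × ℝ) : Set (Fin n → ℝ) :=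
  {x | (∀ j, l j ≤ x j ∧ x j ≤ u j) ∧
    |∑ j, r.1 j * x j - r.2| ≤ ∑ j, |r.1 j| * ((u j - l j) / N) ∧ r.1 ≠ 0}

theorem slab_le (hS : SlabStmt) (l u : Fin n → ℝ) (hlu : ∀ j, l j < u j) (k N : ℕ) (hN : 0 < N)
    (r : (Fin n → ℝ) × ℝ) (hr : {j | r.1 j ≠ 0}.ncard ≤ k) :
    volume (slab l u N r) ≤ ENNReal.ofReal (2 * k / N * ∏ j, (u j - l j)) := by
  have hN' : (0 : ℝ) < N := by exact_mod_cast hN
  by_cases h0 : r.1 = 0
  · have : slab l u N r = ∅ := by
      ext x
      simp [slab, h0]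
    rw [this]
    simp
  · obtain ⟨i, hi⟩ : ∃ i, r.1 i ≠ 0 := by
      by_contra h
      push Not at h
      exact h0 (funext h)
    obtain ⟨J, -, hJ⟩ := Finset.exists_max_image Finset.univ (fun j => |r.1 j| * (u j - l j))
      ⟨i, Finset.mem_univ i⟩
    have hJ0 : r.1 J ≠ 0 := by
      intro h
      have h1 := hJ i (Finset.mem_univ i)
      simp only [h, abs_zero, zero_mul] at h1
      have h2 := mul_pos (abs_pos.mpr hi) (sub_pos.mpr (hlu i))
      linarith
    obtain ⟨δ, hδ⟩ : ∃ δ : ℝ, δ = ∑ j, |r.1 j| * ((u j - l j) / N) := ⟨_, rfl⟩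
    have hδ0 : 0 ≤ δ := by
      rw [hδ]
      exact Finset.sum_nonneg fun j _ => mul_nonneg (abs_nonneg _)
        (div_nonneg (sub_pos.mpr (hlu j)).le (Nat.cast_nonneg _))
    have hJn : 0 ≤ |r.1 J| * ((u J - l J) / N) := mul_nonneg (abs_nonneg _)
        (div_nonneg (sub_pos.mpr (hlu J)).le (Nat.cast_nonneg _))
    have hδ1 : δ ≤ k * (|r.1 J| * ((u J - l J) / N)) := by
      calc δ = ∑ j ∈ Finset.univ.filter (fun j => r.1 j ≠ 0), |r.1 j| * ((u j - l j) / N) := by
            rw [hδ]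
            symm
            apply Finset.sum_filter_of_ne
            intro j _ hj h
            exact hj (by rw [h]; simp)
        _ ≤ ∑ j ∈ Finset.univ.filter (fun j => r.1 j ≠ 0), |r.1 J| * ((u J - l J) / N) := by
            refine Finset.sum_le_sum fun j _ => ?_
            rw [← mul_div_assoc, ← mul_div_assoc]
            exact div_le_div_of_nonneg_right (hJ j (Finset.mem_univ j)) hN'.le
        _ = ((Finset.univ.filter (fun j => r.1 j ≠ 0)).card : ℝ) *
              (|r.1 J| * ((u J - l J) / N)) := by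
            rw [Finset.sum_const, nsmul_eq_mul]
        _ ≤ k * (|r.1 J| * ((u J - l J) / N)) := by
            refine mul_le_mul_of_nonneg_right ?_ hJn
            have h1 : (Finset.univ.filter (fun j => r.1 j ≠ 0)).card = {j | r.1 j ≠ 0}.ncard := by
              rw [← Set.ncard_coe_finset]
              congr 1
              ext j
              simp
            rw [h1]
            exact_mod_cast hr
    have haJ : 0 < |r.1 J| := abs_pos.mpr hJ0
    have hprod : 0 ≤ ∏ j ∈ Finset.univ.erase J, (u j - l j) :=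
      Finset.prod_nonneg fun j _ => (sub_pos.mpr (hlu j)).le
    calc volume (slab l u N r) ≤ volume {x : Fin n → ℝ | (∀ j, l j ≤ x j ∧ x j ≤ u j) ∧
            |∑ j, r.1 j * x j - r.2| ≤ δ} := by
          refine measure_mono fun x hx => ⟨hx.1, ?_⟩
          rw [hδ]
          exact hx.2.1
      _ ≤ ENNReal.ofReal (2 * δ / |r.1 J| * ∏ j ∈ Finset.univ.erase J, (u j - l j)) :=
          hS n l u hlu r.1 r.2 δ J hJ0 hδ0
      _ ≤ _ := by
          refine ENNReal.ofReal_le_ofReal ?_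
          rw [← Finset.mul_prod_erase Finset.univ (fun j => u j - l j) (Finset.mem_univ J),
            ← mul_assoc]
          refine mul_le_mul_of_nonneg_right ?_ hprod
          rw [div_le_iff₀ haJ]
          calc 2 * δ ≤ 2 * (k * (|r.1 J| * ((u J - l J) / N))) := by linarith
            _ = 2 * k / N * (u J - l J) * |r.1 J| := by
              field_simp

theorem slabs_le (hS : SlabStmt) (l u : Fin n → ℝ) (hlu : ∀ j, l j < u j) (k N : ℕ) (hN : 0 < N)
    (R : List ((Fin n → ℝ) × ℝ)) (hR : ∀ r ∈ R, {j | r.1 j ≠ 0}.ncard ≤ k) :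
    volume {x | ∃ r ∈ R, x ∈ slab l u N r} ≤
      ENNReal.ofReal (R.length * (2 * k / N * ∏ j, (u j - l j))) := by
  have hprod : 0 ≤ ∏ j, (u j - l j) := Finset.prod_nonneg fun j _ => (sub_pos.mpr (hlu j)).le
  have he : 0 ≤ 2 * (k : ℝ) / N * ∏ j, (u j - l j) := by positivity
  induction R with
  | nil => simp
  | cons r R ih =>
    have h1 : {x | ∃ r' ∈ r :: R, x ∈ slab l u N r'} ⊆
        slab l u N r ∪ {x | ∃ r ∈ R, x ∈ slab l u N r} := by
      rintro x ⟨r', hr', hx⟩
      rcases List.mem_cons.mp hr' with h | h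
      · exact Or.inl (h ▸ hx)
      · exact Or.inr ⟨r', h, hx⟩
    refine (measure_mono h1).trans ((measure_union_le _ _).trans ?_)
    have h2 := slab_le hS l u hlu k N hN r (hR r (List.mem_cons_self ..))
    have h3 := ih fun r' hr' => hR r' (List.mem_cons_of_mem _ hr')
    refine (add_le_add h2 h3).trans (le_of_eq ?_)
    rw [← ENNReal.ofReal_add he (by positivity), List.length_cons]
    congr 1
    push_cast
    ring

/-- The lower corner of a cell. -/
noncomputable def cor (l u : Fin n → ℝ) (N : ℕ) (v : Fin n → Fin N) (j : Fin n) : ℝ :=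
  l j + (u j - l j) * ((v j : ℕ) : ℝ) / N

/-- A cell. -/
def cell (l u : Fin n → ℝ) (N : ℕ) (v : Fin n → Fin N) : Set (Fin n → ℝ) :=
  Set.pi Set.univ fun j => Set.Ico (cor l u N v j) (cor l u N v j + (u j - l j) / N)

theorem volume_cell (l u : Fin n → ℝ) (hlu : ∀ j, l j < u j) (N : ℕ)
    (v : Fin n → Fin N) :
    volume (cell l u N v) = ENNReal.ofReal ((∏ j, (u j - l j)) / N ^ n) := by
  unfold cell
  rw [Real.volume_pi_Ico, ← ENNReal.ofReal_prod_of_nonneg]
  · congr 1
    simp only [add_sub_cancel_left]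
    rw [Finset.prod_div_distrib, Finset.prod_const, Finset.card_univ, Fintype.card_fin]
  · intro j _
    rw [add_sub_cancel_left]
    exact div_nonneg (sub_pos.mpr (hlu j)).le (Nat.cast_nonneg _)

theorem cell_disj (l u : Fin n → ℝ) (hlu : ∀ j, l j < u j) (N : ℕ) (hN : 0 < N)
    (v w : Fin n → Fin N) (h : v ≠ w) : Disjoint (cell l u N v) (cell l u N w) := by
  have hN' : (0 : ℝ) < N := by exact_mod_cast hN
  have key : ∀ v w : Fin n → Fin N, ∀ j, v j < w j → ∀ x, x ∈ cell l u N v →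
      x ∈ cell l u N w → False := by
    intro v w j hj x hv hw
    have h1 := (hv j (Set.mem_univ j)).2
    have h2 := (hw j (Set.mem_univ j)).1
    unfold cor at h1 h2
    have h3 : ((v j : ℕ) : ℝ) + 1 ≤ ((w j : ℕ) : ℝ) := by exact_mod_cast hj
    have h4 := mul_le_mul_of_nonneg_left h3 (sub_pos.mpr (hlu j)).le
    have h5 := div_le_div_of_nonneg_right h4 hN'.le
    rw [mul_add, mul_one, add_div] at h5
    linarith
  obtain ⟨j, hj⟩ := Function.ne_iff.mp h
  rw [Set.disjoint_left]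
  intro x hv hw
  rcases lt_or_gt_of_ne hj with h1 | h1
  · exact key v w j h1 x hv hw
  · exact key w v j h1 x hw hv

theorem exists_cell (l u : Fin n → ℝ) (hlu : ∀ j, l j < u j) (N : ℕ) (hN : 0 < N)
    (x : Fin n → ℝ) (hx : x ∈ Set.pi Set.univ fun j => Set.Ico (l j) (u j)) :
    ∃ v, x ∈ cell l u N v := by
  have hN' : (0 : ℝ) < N := by exact_mod_cast hN
  have h1 : ∀ j, ⌊(x j - l j) / (u j - l j) * N⌋₊ < N := by
    intro j
    have h2 := hx j (Set.mem_univ j)
    have h3 := sub_pos.mpr (hlu j)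
    rw [Nat.floor_lt (mul_nonneg (div_nonneg (sub_nonneg.mpr h2.1) h3.le) hN'.le)]
    have h4 : (x j - l j) / (u j - l j) < 1 := by
      rw [div_lt_one h3]
      linarith [h2.2]
    calc (x j - l j) / (u j - l j) * N < 1 * N := mul_lt_mul_of_pos_right h4 hN'
      _ = N := one_mul _
  refine ⟨fun j => ⟨_, h1 j⟩, fun j _ => ?_⟩
  have h2 := hx j (Set.mem_univ j)
  have h3 := sub_pos.mpr (hlu j)
  obtain ⟨y, hy⟩ : ∃ y : ℝ, y = (x j - l j) / (u j - l j) * N := ⟨_, rfl⟩
  have hy0 : 0 ≤ y := by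
    rw [hy]
    exact mul_nonneg (div_nonneg (sub_nonneg.mpr h2.1) h3.le) hN'.le
  have hxy : x j = l j + (u j - l j) * y / N := by
    rw [hy]
    field_simp
    ring
  have h4 := Nat.floor_le hy0
  have h5 := (Nat.lt_floor_add_one y).le
  have h5' := Nat.lt_floor_add_one y
  simp only [cor, ← hy]
  constructor
  · rw [hxy]
    have h6 := mul_le_mul_of_nonneg_left h4 h3.le
    have h7 := div_le_div_of_nonneg_right h6 hN'.le
    linarith
  · rw [hxy]
    have h6 := mul_lt_mul_of_pos_left h5' h3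
    have h7 := div_lt_div_of_pos_right h6 hN'
    rw [mul_add, mul_one, add_div] at h7
    linarith

theorem cell_dist (l u : Fin n → ℝ) (N : ℕ) (v : Fin n → Fin N) (x : Fin n → ℝ)
    (hx : x ∈ cell l u N v) (a : Fin n → ℝ) :
    |∑ j, a j * x j - ∑ j, a j * cor l u N v j| ≤ ∑ j, |a j| * ((u j - l j) / N) := by
  rw [← Finset.sum_sub_distrib]
  refine (Finset.abs_sum_le_sum_abs _ _).trans (Finset.sum_le_sum fun j _ => ?_)
  rw [← mul_sub, abs_mul]
  refine mul_le_mul_of_nonneg_left ?_ (abs_nonneg _)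
  have h := hx j (Set.mem_univ j)
  rw [abs_of_nonneg (sub_nonneg.mpr h.1)]
  linarith [h.2]

theorem cell_sub (l u : Fin n → ℝ) (hlu : ∀ j, l j < u j) (N : ℕ) (hN : 0 < N)
    (v : Fin n → Fin N) (x : Fin n → ℝ) (hx : x ∈ cell l u N v) : ∀ j, l j ≤ x j ∧ x j ≤ u j := by
  have hN' : (0 : ℝ) < N := by exact_mod_cast hN
  intro j
  have h := hx j (Set.mem_univ j)
  have h3 := sub_pos.mpr (hlu j)
  have h1 : l j ≤ cor l u N v j := by
    unfold cor
    have : 0 ≤ (u j - l j) * ((v j : ℕ) : ℝ) / N := by positivity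
    linarith
  have h2 : cor l u N v j + (u j - l j) / N ≤ u j := by
    unfold cor
    have h4 : ((v j : ℕ) : ℝ) + 1 ≤ N := by exact_mod_cast (v j).2
    have h5 := mul_le_mul_of_nonneg_left h4 h3.le
    have h6 := div_le_div_of_nonneg_right h5 hN'.le
    rw [mul_add, mul_one, add_div, mul_div_assoc (u j - l j) (N : ℝ) N, div_self hN'.ne',
      mul_one] at h6
    linarith
  exact ⟨h1.trans h.1, (h.2.le).trans h2⟩

/-- If exactly one of the two points satisfies a row, the point is in the slab of the row. -/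
theorem mem_slab (l u : Fin n → ℝ) (hlu : ∀ j, l j < u j) (N : ℕ) (hN : 0 < N)
    (v : Fin n → Fin N) (x : Fin n → ℝ) (hx : x ∈ cell l u N v) (r : (Fin n → ℝ) × ℝ)
    (h : ¬ (r.2 ≤ ∑ j, r.1 j * x j ↔ r.2 ≤ ∑ j, r.1 j * cor l u N v j)) : x ∈ slab l u N r := by
  refine ⟨cell_sub l u hlu N hN v x hx, ?_, ?_⟩
  · have h1 := cell_dist l u N v x hx r.1
    refine le_trans ?_ h1
    by_cases h2 : r.2 ≤ ∑ j, r.1 j * x j
    · have h3 : ¬ r.2 ≤ ∑ j, r.1 j * cor l u N v j := fun h4 => h ⟨fun _ => h4, fun _ => h2⟩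
      push Not at h3
      rw [abs_of_nonneg (sub_nonneg.mpr h2), abs_of_nonneg (by linarith)]
      linarith
    · have h3 : r.2 ≤ ∑ j, r.1 j * cor l u N v j := by
        by_contra h4
        exact h ⟨fun h5 => absurd h5 h2, fun h5 => absurd h5 h4⟩
      push Not at h2
      rw [abs_sub_comm, abs_of_pos (by linarith), abs_sub_comm, abs_of_pos (by linarith)]
      linarith
  · intro h0
    apply h
    simp [h0]

/-- **GEO.** -/
theorem geo : SlabStmt → GeoStmt := by
  intro hS n l u hlu R k N hN hR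
  have hN' : (0 : ℝ) < N := by exact_mod_cast hN
  have hprod : 0 ≤ ∏ j, (u j - l j) := Finset.prod_nonneg fun j _ => (sub_pos.mpr (hlu j)).le
  classical
  obtain ⟨G, hG⟩ : ∃ G : Finset (Fin n → Fin N), G = Finset.univ.filter fun v =>
      ∀ r ∈ R, r.2 ≤ ∑ j, r.1 j * (l j + (u j - l j) * ((v j : ℕ) : ℝ) / N) := ⟨_, rfl⟩
  have hcard : Nat.card {v : Fin n → Fin N //
      ∀ r ∈ R, r.2 ≤ ∑ j, r.1 j * (l j + (u j - l j) * ((v j : ℕ) : ℝ) / N)} = G.card := by
    rw [Nat.card_eq_fintype_card, Fintype.card_subtype, hG]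
  rw [hcard]
  obtain ⟨P, hP⟩ : ∃ P : Set (Fin n → ℝ), P =
      {x : Fin n → ℝ | (∀ j, l j ≤ x j ∧ x j ≤ u j) ∧ ∀ r ∈ R, r.2 ≤ ∑ j, r.1 j * x j} := ⟨_, rfl⟩
  rw [← hP]
  obtain ⟨U, hU⟩ : ∃ U : Set (Fin n → ℝ), U = ⋃ v ∈ G, cell l u N v := ⟨_, rfl⟩
  obtain ⟨T, hT⟩ : ∃ T : Set (Fin n → ℝ), T = {x | ∃ r ∈ R, x ∈ slab l u N r} := ⟨_, rfl⟩
  obtain ⟨B, hB⟩ : ∃ B : Set (Fin n → ℝ), B = Set.pi Set.univ fun j => Set.Ico (l j) (u j) :=
    ⟨_, rfl⟩
  have hvT : volume T ≤ ENNReal.ofReal (R.length * (2 * k / N * ∏ j, (u j - l j))) := by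
    rw [hT]
    exact slabs_le hS l u hlu k N hN R hR
  have hvU : volume U = ENNReal.ofReal (G.card * ((∏ j, (u j - l j)) / N ^ n)) := by
    rw [hU, measure_biUnion_finset (fun v _ w _ h => cell_disj l u hlu N hN v w h)
      (fun v _ => MeasurableSet.univ_pi fun j => measurableSet_Ico)]
    rw [Finset.sum_congr rfl (fun v _ => volume_cell l u hlu N v), Finset.sum_const,
      nsmul_eq_mul, ENNReal.ofReal_mul (Nat.cast_nonneg _), ENNReal.ofReal_natCast]
  have hBn : volume (Set.Icc l u \ B) = 0 := by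
    rw [hB]
    exact (ae_le_set.mp (Measure.univ_pi_Ico_ae_eq_Icc (μ := fun _ : Fin n => volume)
      (f := l) (g := u)).symm.le)
  have hUP : U ⊆ P ∪ T := by
    intro x hx
    rw [hU] at hx
    simp only [Set.mem_iUnion] at hx
    obtain ⟨v, hv, hxv⟩ := hx
    by_cases h : x ∈ T
    · exact Or.inr h
    · left
      rw [hP]
      refine ⟨cell_sub l u hlu N hN v x hxv, fun r hr => ?_⟩
      by_contra h1
      apply h
      rw [hT]
      refine ⟨r, hr, mem_slab l u hlu N hN v x hxv r fun h2 => h1 (h2.mpr ?_)⟩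
      rw [hG, Finset.mem_filter] at hv
      exact hv.2 r hr
  have hPU : P ⊆ (U ∪ T) ∪ (Set.Icc l u \ B) := by
    intro x hx
    rw [hP] at hx
    by_cases hxB : x ∈ B
    · left
      rw [hB] at hxB
      obtain ⟨v, hv⟩ := exists_cell l u hlu N hN x hxB
      by_cases h : x ∈ T
      · exact Or.inr h
      · left
        rw [hU]
        simp only [Set.mem_iUnion]
        refine ⟨v, ?_, hv⟩
        rw [hG, Finset.mem_filter]
        refine ⟨Finset.mem_univ _, fun r hr => ?_⟩
        by_contra h1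
        apply h
        rw [hT]
        exact ⟨r, hr, mem_slab l u hlu N hN v x hv r fun h2 => h1 (h2.mp (hx.2 r hr))⟩
    · right
      exact ⟨⟨fun j => (hx.1 j).1, fun j => (hx.1 j).2⟩, hxB⟩
  obtain ⟨g, hg⟩ : ∃ g : ℝ, g = G.card * ((∏ j, (u j - l j)) / N ^ n) := ⟨_, rfl⟩
  obtain ⟨ε, hε⟩ : ∃ ε : ℝ, ε = R.length * (2 * k / N * ∏ j, (u j - l j)) := ⟨_, rfl⟩
  have hg0 : 0 ≤ g := by rw [hg]; positivity
  have hε0 : 0 ≤ ε := by rw [hε]; positivity
  have hPfin : volume P ≠ ⊤ := by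
    refine ne_top_of_le_ne_top ?_ (measure_mono (show P ⊆ Set.Icc l u from fun x hx => ?_))
    · rw [Real.volume_Icc_pi]
      exact ENNReal.prod_ne_top fun j _ => ENNReal.ofReal_ne_top
    · rw [hP] at hx
      exact ⟨fun j => (hx.1 j).1, fun j => (hx.1 j).2⟩
  have h1 : g ≤ vol P + ε := by
    have h2 : ENNReal.ofReal g ≤ volume P + ENNReal.ofReal ε := by
      rw [hg, ← hvU, hε]
      exact (measure_mono hUP).trans ((measure_union_le _ _).trans (add_le_add le_rfl hvT))
    have h3 := ENNReal.toReal_mono (ENNReal.add_ne_top.mpr ⟨hPfin, ENNReal.ofReal_ne_top⟩) h2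
    rw [ENNReal.toReal_ofReal hg0, ENNReal.toReal_add hPfin ENNReal.ofReal_ne_top,
      ENNReal.toReal_ofReal hε0] at h3
    exact h3
  have h2 : vol P ≤ g + ε := by
    have h2 : volume P ≤ ENNReal.ofReal g + ENNReal.ofReal ε := by
      rw [hg, ← hvU, hε]
      refine (measure_mono hPU).trans ((measure_union_le _ _).trans ?_)
      rw [hBn, add_zero]
      exact (measure_union_le _ _).trans (add_le_add le_rfl hvT)
    have h3 := ENNReal.toReal_mono
      (ENNReal.add_ne_top.mpr ⟨ENNReal.ofReal_ne_top, ENNReal.ofReal_ne_top⟩) h2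
    rw [ENNReal.toReal_add ENNReal.ofReal_ne_top ENNReal.ofReal_ne_top,
      ENNReal.toReal_ofReal hε0, ENNReal.toReal_ofReal hg0] at h3
    exact h3
  have e1 : (G.card : ℝ) / N ^ n * ∏ j, (u j - l j) = g := by
    rw [hg]
    ring
  have e2 : 2 * k * R.length / N * ∏ j, (u j - l j) = ε := by
    rw [hε]
    ring
  rw [e1, e2, abs_le]
  constructor <;> linarith

end Pool.Agent.Helper39.VP
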